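import Mathlib
import Pool.Agent.H55.SparseDiff

namespace Pool.Agent.Results.MP_7e65d6_nt.ThickWitness

open Filter Topology

/-- Upper density of `A` relative to `E`. -/
noncomputable def upperRel (E A : Set ℕ) : ℝ :=
  limsup (fun N : ℕ => ((A ∩ E ∩ Set.Icc 1 N).ncard : ℝ) / ((E ∩ Set.Icc 1 N).ncard : ℝ)) atTop

/-- `R` meets `A - A` for every `A ⊆ E` of positive upper relative density. -/
def RelIntersective (E R : Set ℕ) : Prop :=
  ∀ A : Set ℕ, A ⊆ E → 0 < upperRel E A → ∃ r ∈ R, ∃ a ∈ A, ∃ b ∈ A, (r : ℤ) = (a : ℤ) - (b : ℤ)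

/-- Intersective sets: the case `E = {1, 2, 3, ...}`. -/
def Intersective (R : Set ℕ) : Prop := RelIntersective {n | 1 ≤ n} R

/-- Upper Banach density zero: `sup_{M ≥ 1} |E ∩ [M, M + N)| / N → 0`. -/
def BanachZero (E : Set ℕ) : Prop :=
  Tendsto (fun N : ℕ => ⨆ M : ℕ, ((E ∩ Set.Ico (M + 1) (M + 1 + N)).ncard : ℝ) / (N : ℝ))
    atTop (𝓝 0)

/-- `R` contains arbitrarily long intervals. -/
def Thick (R : Set ℕ) : Prop := ∀ l : ℕ, ∃ p : ℕ, ∀ t < l, p + t ∈ R

theorem result : ∀ E : Set ℕ, 0 ∉ E → E.Infinite → BanachZero E →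
    ∃ R : Set ℕ, 0 ∉ R ∧ Thick R ∧ Intersective R ∧ ¬ RelIntersective E R := by
  intro E _ hinf hB
  have hS : Pool.Agent.H55.SparseDiff.Sparse E := by
    intro ε hε
    unfold BanachZero at hB
    simp only [Pool.Agent.H55.SparseDiff.win_eq] at hB
    have hev := hB.eventually (gt_mem_nhds hε)
    rw [eventually_atTop] at hev
    obtain ⟨L, hL⟩ := hev
    refine ⟨L + 1, fun l hl M => ?_⟩
    have h1 := hL l (by omega)
    have h2 : (Pool.Agent.H55.SparseDiff.win E M l : ℝ) / l ≤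
        ⨆ M : ℕ, (Pool.Agent.H55.SparseDiff.win E M l : ℝ) / l :=
      le_ciSup (f := fun M : ℕ => (Pool.Agent.H55.SparseDiff.win E M l : ℝ) / l)
        ⟨1, by
          rintro _ ⟨M, rfl⟩
          exact Pool.Agent.H55.SparseDiff.win_div_le E M l⟩ M
    have hpos : (0 : ℝ) < l := by
      have : 0 < l := by omega
      exact_mod_cast this
    have h3 := lt_of_le_of_lt h2 h1
    rw [div_lt_iff₀ hpos] at h3
    exact h3.le
  obtain ⟨A, hAE, R, hR, hR1, hAR, hA⟩ := Pool.Agent.H55.SparseDiff.core E hS hinf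
  refine ⟨R, fun h => absurd (hR1 0 h) (by omega), ?_, ?_, ?_⟩
  · intro l
    obtain ⟨p, -, hp⟩ := hR l
    exact ⟨p, hp⟩
  · intro B hB1 hB2
    unfold upperRel at hB2
    rw [Set.inter_eq_left.mpr hB1] at hB2
    simp only [Pool.Agent.H55.SparseDiff.cnt_eq, Pool.Agent.H55.SparseDiff.cnt_pos_nat] at hB2
    obtain ⟨k, hk⟩ := Pool.Agent.H55.SparseDiff.freq_of_limsup B hB2
    obtain ⟨r, hr, x, hx, y, hy, hxy⟩ := Pool.Agent.H55.SparseDiff.thick_meets R hR B k hk
    exact ⟨r, hr, x, hx, y, hy, by omega⟩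
  · intro h
    have hpos : 0 < upperRel E A := by
      unfold upperRel
      rw [Set.inter_eq_left.mpr hAE]
      simp only [Pool.Agent.H55.SparseDiff.cnt_eq]
      exact Pool.Agent.H55.SparseDiff.limsup_pos hAE hinf hA
    obtain ⟨r, hr, a, ha, b, hb, hab⟩ := h A hAE hpos
    exact hAR a ha b hb r hr (by omega)

end Pool.Agent.Results.MP_7e65d6_nt.ThickWitness
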